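import Mathlib

set_option autoImplicit false

namespace Pool.Agent.B595.HG

open Topology Filter Set

variable {Y : Type} [MetricSpace Y]

theorem isClosed_comp {D : Set Y} (hD : IsClosed D) (x : Y) : IsClosed (connectedComponentIn D x) := by
  by_cases hx : x ∈ D
  · rw [connectedComponentIn_eq_image hx]
    exact hD.isClosedEmbedding_subtypeVal.isClosedMap _ isClosed_connectedComponent
  · rw [connectedComponentIn_eq_empty hx]
    exact isClosed_empty

theorem clopen_nbhd [CompactSpace Y] {D O : Set Y} (hD : IsClosed D) (hO : IsOpen O) {x : Y} (hx : x ∈ D)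
    (hC : connectedComponentIn D x ⊆ O) :
    ∃ S, S ⊆ D ∧ IsClosed S ∧ IsClosed (D \ S) ∧ x ∈ S ∧ S ⊆ O := by
  have hDc : CompactSpace D := isCompact_iff_compactSpace.mp hD.isCompact
  set O' : Set D := Subtype.val ⁻¹' O with hO'
  have hO'o : IsOpen O' := hO.preimage continuous_subtype_val
  have hsub : connectedComponent (⟨x, hx⟩ : D) ⊆ O' := by
    intro y hy
    apply hC
    rw [connectedComponentIn_eq_image hx]
    exact ⟨y, hy, rfl⟩
  rw [connectedComponent_eq_iInter_isClopen] at hsub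
  have hne : Nonempty { s : Set D // IsClopen s ∧ (⟨x, hx⟩ : D) ∈ s } := ⟨⟨Set.univ, isClopen_univ, trivial⟩⟩
  obtain ⟨⟨Z, hZc, hxZ⟩, hZ⟩ := hO'o.isClosed_compl.isCompact.elim_directed_family_closed
    (fun s : { s : Set D // IsClopen s ∧ (⟨x, hx⟩ : D) ∈ s } => s.1) (fun s => s.2.1.isClosed) (by
      rw [Set.eq_empty_iff_forall_notMem]
      rintro y ⟨h1, h2⟩
      exact h1 (hsub h2)) (by
      rintro ⟨a, ha1, ha2⟩ ⟨b, hb1, hb2⟩
      exact ⟨⟨a ∩ b, ha1.inter hb1, ha2, hb2⟩, Set.inter_subset_left, Set.inter_subset_right⟩)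
  refine ⟨Subtype.val '' Z, ?_, hD.isClosedEmbedding_subtypeVal.isClosedMap _ hZc.isClosed, ?_, ⟨⟨x, hx⟩, hxZ, rfl⟩, ?_⟩
  · rintro _ ⟨y, -, rfl⟩
    exact y.2
  · have : D \ (Subtype.val '' Z) = Subtype.val '' Zᶜ := by
      ext y
      constructor
      · rintro ⟨h1, h2⟩
        exact ⟨⟨y, h1⟩, fun h => h2 ⟨_, h, rfl⟩, rfl⟩
      · rintro ⟨y, hy, rfl⟩
        refine ⟨y.2, ?_⟩
        rintro ⟨z, hz, hzy⟩
        exact hy (by rwa [← Subtype.ext hzy])
    rw [this]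
    exact hD.isClosedEmbedding_subtypeVal.isClosedMap _ hZc.compl.isClosed
  · rintro _ ⟨y, hy, rfl⟩
    by_contra hcon
    have : y ∈ O'ᶜ ∩ Z := ⟨hcon, hy⟩
    rw [hZ] at this
    exact this

theorem separate [CompactSpace Y] {H A B : Set Y} (hH : IsClosed H) (hA : IsClosed A) (hB : IsClosed B)
    (h : ∀ a ∈ A ∩ H, connectedComponentIn H a ∩ B = ∅) :
    ∃ H1, H1 ⊆ H ∧ IsClosed H1 ∧ IsClosed (H \ H1) ∧ A ∩ H ⊆ H1 ∧ H1 ∩ B = ∅ := by
  have hS : ∀ a ∈ A ∩ H, ∃ S, S ⊆ H ∧ IsClosed S ∧ IsClosed (H \ S) ∧ a ∈ S ∧ S ⊆ Bᶜ := by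
    intro a ha
    apply clopen_nbhd hH hB.isOpen_compl ha.2
    intro y hy hyB
    have : y ∈ connectedComponentIn H a ∩ B := ⟨hy, hyB⟩
    rw [h a ha] at this
    exact this
  choose! S hS1 hS2 hS3 hS4 hS5 using hS
  have hAH : IsCompact (A ∩ H) := (hA.inter hH).isCompact
  obtain ⟨t, ht, htc⟩ := hAH.elim_nhdsWithin_subcover S (fun a ha => by
    rw [mem_nhdsWithin]
    refine ⟨(H \ S a)ᶜ, (hS3 a ha).isOpen_compl, fun h' => h'.2 (hS4 a ha), ?_⟩
    rintro y ⟨h1, h2⟩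
    by_contra hcon
    exact h1 ⟨h2.2, hcon⟩)
  refine ⟨⋃ a ∈ t, S a, ?_, ?_, ?_, htc, ?_⟩
  · exact Set.iUnion₂_subset fun a ha => hS1 a (ht a ha)
  · exact isClosed_biUnion_finset fun a ha => hS2 a (ht a ha)
  · have : H \ (⋃ a ∈ t, S a) = H ∩ ⋂ a ∈ t, (H \ S a) := by
      ext y
      simp only [Set.mem_sdiff, Set.mem_iUnion, Set.mem_inter_iff, Set.mem_iInter]
      constructor
      · rintro ⟨h1, h2⟩
        exact ⟨h1, fun a ha => ⟨h1, fun h3 => h2 ⟨a, ha, h3⟩⟩⟩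
      · rintro ⟨h1, h2⟩
        refine ⟨h1, ?_⟩
        rintro ⟨a, ha, h3⟩
        exact (h2 a ha).2 h3
    rw [this]
    exact hH.inter (isClosed_biInter fun a ha => hS3 a (ht a ha))
  · rw [Set.eq_empty_iff_forall_notMem]
    rintro y ⟨h1, h2⟩
    simp only [Set.mem_iUnion] at h1
    obtain ⟨a, ha, h3⟩ := h1
    exact hS5 a (ht a ha) h3 h2

/-- A relatively clopen subset of a closed set contains the components of its points. -/
theorem comp_subset_of_clopen {D S : Set Y} (hS : IsClosed S) (hS' : IsClosed (D \ S)) {x : Y} (hx : x ∈ S)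
    (hxD : x ∈ D) : connectedComponentIn D x ⊆ S := by
  intro y hy
  by_contra hcon
  have hpre : IsPreconnected (connectedComponentIn D x) := isPreconnected_connectedComponentIn
  rw [isPreconnected_closed_iff] at hpre
  obtain ⟨z, hz, hz1, hz2⟩ := hpre S (D \ S) hS hS' (by
    intro z hz
    by_cases h : z ∈ S
    · exact Or.inl h
    · exact Or.inr ⟨connectedComponentIn_subset _ _ hz, h⟩) ⟨x, mem_connectedComponentIn hxD, hx⟩
    ⟨y, hy, connectedComponentIn_subset _ _ hy, hcon⟩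
  exact hz2.2 hz1

end Pool.Agent.B595.HG
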