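import Mathlib
import Pool.Agent.B595.HG.Comp

set_option autoImplicit false

namespace Pool.Agent.B595.HG

open Topology Filter Set

variable {K : Type} [MetricSpace K]

/-- The orbit leaves `C` towards `I`. -/
def Tow (f : K → K) (C I : Set K) : Prop :=
  ∃ M, IsClosed M ∧ IsPreconnected M ∧ (M ∩ C).Nonempty ∧ (M ∩ f '' C).Nonempty ∧ M ∩ C ⊆ I

/-- Intersections of closed connected sets are connected. -/
def Uni (K : Type) [TopologicalSpace K] : Prop :=
  ∀ A B : Set K, IsClosed A → IsClosed B → IsPreconnected A → IsPreconnected B → IsPreconnected (A ∩ B)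

def ArcPres (f : K → K) : Prop :=
  ∀ x : K, ∃ γ : unitInterval → K, Continuous γ ∧ γ 0 = x ∧ γ 1 = f x

theorem exit [CompactSpace K] {f : K → K} (harc : ArcPres f) {Q : Set K} (hQ : IsClosed Q)
    (hdis : Q ∩ f '' Q = ∅) {x : K} (hx : x ∈ Q) :
    ∃ z ∈ Q, ∃ M, IsClosed M ∧ IsPreconnected M ∧ M ∩ Q = {z} ∧ f x ∈ M ∧
      ∀ I, IsOpen I → z ∈ I → ∃ J, IsPreconnected J ∧ z ∈ J ∧ J ⊆ I ∧ ¬ J ⊆ Q := by
  obtain ⟨γ, hγ, h0, h1⟩ := harc x
  have hT : IsCompact {t | γ t ∈ Q} := (hQ.preimage hγ).isCompact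
  obtain ⟨t0, ht0, hmax⟩ := hT.exists_isGreatest ⟨0, by show γ 0 ∈ Q; rw [h0]; exact hx⟩
  have ht1 : t0 < 1 := by
    apply lt_of_le_of_ne unitInterval.le_one'
    intro heq
    have h2 : γ t0 ∈ Q := ht0
    rw [heq, h1] at h2
    have : f x ∈ Q ∩ f '' Q := ⟨h2, ⟨x, hx, rfl⟩⟩
    rw [hdis] at this
    exact this
  refine ⟨γ t0, ht0, γ '' Set.Icc t0 1, (isClosed_Icc.isCompact.image hγ).isClosed,
    isPreconnected_Icc.image _ hγ.continuousOn, ?_, ⟨1, ⟨ht1.le, le_refl _⟩, h1⟩, ?_⟩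
  · ext y
    constructor
    · rintro ⟨⟨s, hs, rfl⟩, hy⟩
      have : s ≤ t0 := hmax hy
      have : s = t0 := le_antisymm this hs.1
      rw [this]; rfl
    · rintro rfl
      exact ⟨⟨t0, ⟨le_refl _, ht1.le⟩, rfl⟩, ht0⟩
  · intro I hI hzI
    have hnb : γ ⁻¹' I ∈ 𝓝[≥] t0 := mem_nhdsWithin_of_mem_nhds ((hI.preimage hγ).mem_nhds hzI)
    obtain ⟨u, hu, hsub⟩ := (mem_nhdsGE_iff_exists_Ico_subset' ht1).mp hnb
    obtain ⟨s, hs1, hs2⟩ := exists_between (Set.mem_Ioi.mp hu)
    refine ⟨γ '' Set.Icc t0 s, isPreconnected_Icc.image _ hγ.continuousOn, ⟨t0, ⟨le_refl _, hs1.le⟩, rfl⟩, ?_, ?_⟩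
    · rintro _ ⟨r, hr, rfl⟩
      exact hsub ⟨hr.1, lt_of_le_of_lt hr.2 hs2⟩
    · intro hcon
      have : γ s ∈ Q := hcon ⟨s, ⟨hs1.le, le_refl _⟩, rfl⟩
      exact absurd (hmax this) (not_le.mpr hs1)

variable [CompactSpace K]

/-- Exit of a component of `D`: the exit point is not interior to `D`. -/
theorem exit_comp {f : K → K} (harc : ArcPres f) {D : Set K} (hD : IsClosed D)
    {x : K} (hx : x ∈ D) (hdis : connectedComponentIn D x ∩ f '' (connectedComponentIn D x) = ∅) :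
    ∃ z ∈ connectedComponentIn D x, ∃ M, IsClosed M ∧ IsPreconnected M ∧
      M ∩ connectedComponentIn D x = {z} ∧ f x ∈ M ∧ z ∉ interior D := by
  obtain ⟨z, hz, M, h1, h2, h3, h4, h5⟩ := exit harc (isClosed_comp hD x) hdis (mem_connectedComponentIn hx)
  refine ⟨z, hz, M, h1, h2, h3, h4, fun hzI => ?_⟩
  obtain ⟨J, hJ, hzJ, hJI, hJQ⟩ := h5 _ isOpen_interior hzI
  apply hJQ
  have := hJ.subset_connectedComponentIn hzJ (hJI.trans interior_subset)
  rwa [← connectedComponentIn_eq hz] at this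

theorem tow_or {f : K → K} (harc : ArcPres f) {A B : Set K} (hA : IsClosed A) (hB : IsClosed B)
    (hint : ∀ z ∈ A ∩ B, z ∈ interior A ∨ z ∈ interior B)
    {x : K} (hx : x ∈ A ∩ B) (hdis : connectedComponentIn (A ∩ B) x ∩ f '' (connectedComponentIn (A ∩ B) x) = ∅) :
    Tow f (connectedComponentIn (A ∩ B) x) (interior A) ∨ Tow f (connectedComponentIn (A ∩ B) x) (interior B) := by
  obtain ⟨z, hz, M, h1, h2, h3, h4, -⟩ := exit_comp harc (hA.inter hB) hx hdis
  have key : ∀ I, z ∈ I → Tow f (connectedComponentIn (A ∩ B) x) I := by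
    intro I hI
    refine ⟨M, h1, h2, by rw [h3]; exact ⟨z, rfl⟩, ⟨f x, h4, ⟨x, mem_connectedComponentIn hx, rfl⟩⟩, ?_⟩
    rw [h3]
    rintro _ rfl
    exact hI
  rcases hint z (connectedComponentIn_subset _ _ hz) with h | h
  · exact Or.inl (key _ h)
  · exact Or.inr (key _ h)

theorem tow_excl (hU : Uni K) {f : K → K} (hf : Continuous f) (harc : ArcPres f) {A B : Set K}
    (hA : IsClosed A) (hB : IsClosed B)
    {x : K} (hx : x ∈ A ∩ B) (hdis : connectedComponentIn (A ∩ B) x ∩ f '' (connectedComponentIn (A ∩ B) x) = ∅)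
    (ha : Tow f (connectedComponentIn (A ∩ B) x) (interior A))
    (hb : Tow f (connectedComponentIn (A ∩ B) x) (interior B)) : False := by
  obtain ⟨z, hz, M, h1, h2, h3, h4, h5⟩ := exit_comp harc (hA.inter hB) hx hdis
  rw [interior_inter] at h5
  set C := connectedComponentIn (A ∩ B) x with hC
  have hxC : x ∈ C := mem_connectedComponentIn hx
  have hCc : IsClosed C := isClosed_comp (hA.inter hB) x
  have hCp : IsPreconnected C := isPreconnected_connectedComponentIn
  have hfC : IsClosed (f '' C) := (hCc.isCompact.image hf).isClosed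
  have hfp : IsPreconnected (f '' C) := hCp.image _ hf.continuousOn
  have key : ∀ I, z ∉ I → Tow f C I → False := by
    rintro I hzI ⟨M', g1, g2, g3, ⟨y, hy1, hy2⟩, g5⟩
    have e1 : IsPreconnected (M ∪ f '' C) := h2.union (f x) h4 ⟨x, hxC, rfl⟩ hfp
    have e2 : IsPreconnected ((M ∪ f '' C) ∪ M') := e1.union y (Or.inr hy2) hy1 g2
    have e3 := hU _ _ ((h1.union hfC).union g1) hCc e2 hCp
    rw [isPreconnected_closed_iff] at e3
    obtain ⟨w, hw⟩ := g3
    obtain ⟨v, hv, hv1, hv2⟩ := e3 {z} (M' ∩ C) isClosed_singleton (g1.inter hCc) (by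
      rintro u ⟨(hu | hu) | hu, huC⟩
      · left
        have : u ∈ M ∩ C := ⟨hu, huC⟩
        rw [h3] at this
        exact this
      · exfalso
        have : u ∈ C ∩ f '' C := ⟨huC, hu⟩
        rw [hdis] at this
        exact this
      · exact Or.inr ⟨hu, huC⟩)
      ⟨z, ⟨Or.inl (Or.inl (by
        have : z ∈ M ∩ C := by rw [h3]; rfl
        exact this.1)), hz⟩, rfl⟩
      ⟨w, ⟨Or.inr hw.1, hw.2⟩, hw⟩
    have hvz : v = z := hv1
    rw [hvz] at hv2
    exact hzI (g5 hv2)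
  by_cases hzA : z ∈ interior A
  · exact key (interior B) (fun h => h5 ⟨hzA, h⟩) hb
  · exact key (interior A) hzA ha

/-- Every component of a cover element has an outgoing door. -/
theorem door {f : K → K} (hf : Continuous f) (harc : ArcPres f) {n : ℕ} {R : Fin n → Set K}
    (hR : ∀ i, IsClosed (R i)) (hcov : ∀ z, ∃ i, z ∈ interior (R i))
    {i : Fin n} {x : K} (hx : x ∈ R i)
    (hdis : connectedComponentIn (R i) x ∩ f '' (connectedComponentIn (R i) x) = ∅) :
    ∃ j, j ≠ i ∧ ∃ y ∈ connectedComponentIn (R i) x, y ∈ R j ∧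
      Tow f (connectedComponentIn (R i ∩ R j) y) (interior (R j)) := by
  obtain ⟨z, hz, M, h1, h2, h3, h4, h5⟩ := exit_comp harc (hR i) hx hdis
  obtain ⟨j, hj⟩ := hcov z
  have hji : j ≠ i := fun h => h5 (h ▸ hj)
  have hzi : z ∈ R i := connectedComponentIn_subset _ _ hz
  have hzj : z ∈ R j := interior_subset hj
  refine ⟨j, hji, z, hz, hzj, ?_⟩
  set P := connectedComponentIn (R i) x with hP
  set C := connectedComponentIn (R i ∩ R j) z with hC
  have hPc : IsClosed P := isClosed_comp (hR i) x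
  have hCP : C ⊆ P := by
    have : C ⊆ connectedComponentIn (R i) z := connectedComponentIn_mono z Set.inter_subset_left
    rwa [← connectedComponentIn_eq hz] at this
  have hzC : z ∈ C := mem_connectedComponentIn ⟨hzi, hzj⟩
  have hzM : z ∈ M := by
    have : z ∈ M ∩ P := by rw [h3]; rfl
    exact this.1
  have hPp : IsPreconnected P := isPreconnected_connectedComponentIn
  refine ⟨M ∪ f '' P, h1.union (hPc.isCompact.image hf).isClosed,
    h2.union (f x) h4 ⟨x, mem_connectedComponentIn hx, rfl⟩ (hPp.image _ hf.continuousOn),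
    ⟨z, Or.inl hzM, hzC⟩, ⟨f z, Or.inr ⟨z, hz, rfl⟩, ⟨z, hzC, rfl⟩⟩, ?_⟩
  rintro u ⟨hu | hu, huC⟩
  · have : u ∈ M ∩ P := ⟨hu, hCP huC⟩
    rw [h3] at this
    have : u = z := this
    rw [this]; exact hj
  · exfalso
    have : u ∈ P ∩ f '' P := ⟨hCP huC, hu⟩
    rw [hdis] at this
    exact this

end Pool.Agent.B595.HG
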