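import Mathlib
import Pool.Agent.B595.NW.Glue

set_option autoImplicit false

namespace Pool.Agent.B595.HG

open Topology Filter Set
open Pool.Agent.B595.NW

variable {Y : Type} [MetricSpace Y]

/-- Vanishing of `H^1` in the form needed: a jump by `1` across a clopen part `S` of `A v ∩ A w`
can be prescribed. -/
theorem h1 [CompactSpace Y] (hF : ForestCov Y) {n : ℕ} (A : Fin n → Set Y) (hA : ∀ i, IsClosed (A i))
    (v w : Fin n) (hvw : v ≠ w) (S : Set Y) (hS : IsClosed S) (hSvw : S ⊆ A v ∩ A w)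
    (hS' : IsClosed ((A v ∩ A w) \ S)) (hS3 : ∀ u, u ≠ v → u ≠ w → ∀ x ∈ S, x ∉ A u) :
    ∃ κ : Fin n → Y → ℤ, (∀ u, ∀ x ∈ A u, ∀ᶠ x' in 𝓝[A u] x, κ u x' = κ u x) ∧
      (∀ x ∈ S, κ w x = κ v x + 1) ∧
      (∀ x, x ∉ S → ∀ u u', x ∈ A u → x ∈ A u' → κ u x = κ u' x) := by
  classical
  set Z : Set Y := ⋃ i, A i with hZ
  have hZc : IsClosed Z := isClosed_iUnion_of_finite hA
  set P := {p : Fin n × Y // p.2 ∈ A p.1} with hP
  set q : P → Y := fun p => p.1.2 with hq
  have hqA : ∀ p : P, q p ∈ A p.1.1 := fun p => p.2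
  set O : Y → Set Y := fun z => {y | (∀ u, z ∉ A u → y ∉ A u) ∧ (z ∈ S → y ∉ (A v ∩ A w) \ S) ∧ (z ∉ S → y ∉ S)}
    with hO
  have hOo : ∀ z, IsOpen (O z) := by
    intro z
    have e1 : IsOpen {y | ∀ u, z ∉ A u → y ∉ A u} := by
      have : {y | ∀ u, z ∉ A u → y ∉ A u} = ⋂ u, {y | z ∉ A u → y ∉ A u} := by ext; simp
      rw [this]
      refine isOpen_iInter_of_finite fun u => ?_
      by_cases h : z ∈ A u
      · simp [h]
      · simp only [h, not_false_eq_true, true_imp_iff]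
        exact (hA u).isOpen_compl
    have e2 : IsOpen {y | z ∈ S → y ∉ (A v ∩ A w) \ S} := by
      by_cases h : z ∈ S
      · simp only [h, true_imp_iff]; exact hS'.isOpen_compl
      · simp [h]
    have e3 : IsOpen {y | z ∉ S → y ∉ S} := by
      by_cases h : z ∈ S
      · simp [h]
      · simp only [h, not_false_eq_true, true_imp_iff]; exact hS.isOpen_compl
    exact e1.inter (e2.inter e3)
  have hOself : ∀ z, z ∈ O z := by
    intro z
    exact ⟨fun u h => h, fun h h' => h'.2 h, fun h => h⟩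
  set k : Y → P → ℤ := fun z p => if p.1.1 = w ∧ z ∈ S then 1 else 0 with hk
  have hmix : ∀ z1 z2 y0, z1 ∈ S → z2 ∉ S → y0 ∈ Z → y0 ∈ O z1 → y0 ∈ O z2 → LocEq Z q (k z1) (k z2) y0 := by
    intro z1 z2 y0 h1 h2 hy0 hy1 hy2
    have hyS : y0 ∉ S := hy2.2.2 h2
    have hyvw : ¬ (y0 ∈ A v ∧ y0 ∈ A w) := fun h => hy1.2.1 h1 ⟨h, hyS⟩
    have hother : ∀ u, u ≠ v → u ≠ w → z1 ∉ A u := fun u hu hu' => hS3 u hu hu' z1 h1
    have hnb1 : ∀ᶠ w' in 𝓝[Z] y0, w' ∈ O z1 := mem_nhdsWithin_of_mem_nhds ((hOo z1).mem_nhds hy1)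
    by_cases hyw : y0 ∈ A w
    · have hyv : y0 ∉ A v := fun h => hyvw ⟨h, hyw⟩
      refine ⟨1, ?_⟩
      filter_upwards [hnb1, mem_nhdsWithin_of_mem_nhds ((hA v).isOpen_compl.mem_nhds hyv)] with w' a b p hp
      have hpw : p.1.1 = w := by
        by_contra hne
        by_cases hpv : p.1.1 = v
        · have := hqA p
          rw [hp, hpv] at this
          exact b this
        · have := hqA p
          rw [hp] at this
          exact a.1 _ (hother _ hpv hne) this
      simp [hk, hpw, h1, h2]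
    · refine ⟨0, ?_⟩
      filter_upwards [mem_nhdsWithin_of_mem_nhds ((hA w).isOpen_compl.mem_nhds hyw)] with w' b p hp
      have hpw : p.1.1 ≠ w := by
        intro hpw
        have := hqA p
        rw [hp, hpw] at this
        exact b this
      simp [hk, hpw]
  obtain ⟨K, hK⟩ := glue (P := P) (G := ℤ) hF Z hZc q O (fun z _ => ⟨hOo z, hOself z⟩) k (by
    intro z1 _ z2 _ y0 hy0 hy1 hy2
    by_cases h1 : z1 ∈ S <;> by_cases h2 : z2 ∈ S
    · refine ⟨0, Filter.Eventually.of_forall fun w' p _ => ?_⟩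
      simp [hk, h1, h2]
    · exact hmix z1 z2 y0 h1 h2 hy0 hy1 hy2
    · exact (hmix z2 z1 y0 h2 h1 hy0 hy2 hy1).symm
    · refine ⟨0, Filter.Eventually.of_forall fun w' p _ => ?_⟩
      simp [hk, h1, h2])
  have hAZ : ∀ u, A u ⊆ Z := fun u => Set.subset_iUnion A u
  refine ⟨fun u x => if h : x ∈ A u then K ⟨(u, x), h⟩ else 0, ?_, ?_, ?_⟩
  · intro u x hx
    obtain ⟨c, hc⟩ := hK x (hAZ u hx) x (hAZ u hx) (hOself x)
    have hself := hc.self_of_nhdsWithin (hAZ u hx) ⟨(u, x), hx⟩ rfl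
    have hc' : ∀ᶠ w' in 𝓝[A u] x, ∀ p : P, q p = w' → K p - k x p = c :=
      hc.filter_mono (nhdsWithin_mono _ (hAZ u))
    filter_upwards [hc', self_mem_nhdsWithin] with x' a hx'
    have a' := a ⟨(u, x'), hx'⟩ rfl
    simp only [dif_pos hx', dif_pos hx]
    simp only [hk] at a' hself
    linarith
  · intro x hx
    have hxv := (hSvw hx).1
    have hxw := (hSvw hx).2
    obtain ⟨c, hc⟩ := hK x (hAZ v hxv) x (hAZ v hxv) (hOself x)
    have h1 := hc.self_of_nhdsWithin (hAZ v hxv) ⟨(v, x), hxv⟩ rfl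
    have h2 := hc.self_of_nhdsWithin (hAZ v hxv) ⟨(w, x), hxw⟩ rfl
    simp only [dif_pos hxv, dif_pos hxw]
    simp only [hk, hx, hvw, and_true, if_true, if_false] at h1 h2
    linarith
  · intro x hx u u' hu hu'
    obtain ⟨c, hc⟩ := hK x (hAZ u hu) x (hAZ u hu) (hOself x)
    have h1 := hc.self_of_nhdsWithin (hAZ u hu) ⟨(u, x), hu⟩ rfl
    have h2 := hc.self_of_nhdsWithin (hAZ u hu) ⟨(u', x), hu'⟩ rfl
    simp only [dif_pos hu, dif_pos hu']
    simp only [hk, hx, and_false, if_false] at h1 h2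
    linarith

/-- Hereditary unicoherence. -/
theorem unicoherent [CompactSpace Y] (hF : ForestCov Y) {A B : Set Y} (hA : IsClosed A) (hB : IsClosed B)
    (hAc : IsPreconnected A) (hBc : IsPreconnected B) : IsPreconnected (A ∩ B) := by
  classical
  rw [isPreconnected_closed_iff]
  intro t t' ht ht' hsub hne hne'
  by_contra hcon
  rw [Set.not_nonempty_iff_eq_empty] at hcon
  set F : Fin 2 → Set Y := fun i => if i = 0 then A else B with hFdef
  have hF0 : F 0 = A := by simp [hFdef]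
  have hF1 : F 1 = B := by simp [hFdef]
  have hdiff : (F 0 ∩ F 1) \ (A ∩ B ∩ t) = A ∩ B ∩ t' := by
    rw [hF0, hF1]
    ext x
    constructor
    · rintro ⟨h1, h2⟩
      rcases hsub h1 with h | h
      · exact absurd ⟨h1, h⟩ h2
      · exact ⟨h1, h⟩
    · rintro ⟨h1, h2⟩
      refine ⟨h1, fun h => ?_⟩
      have : x ∈ A ∩ B ∩ (t ∩ t') := ⟨h1, h.2, h2⟩
      rw [hcon] at this
      exact this
  obtain ⟨κ, hκ1, hκ2, hκ3⟩ := h1 hF F (by intro i; fin_cases i <;> simp [hFdef, hA, hB]) 0 1 (by decide)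
    (A ∩ B ∩ t) ((hA.inter hB).inter ht) (by rw [hF0, hF1]; exact Set.inter_subset_left)
    (by rw [hdiff]; exact (hA.inter hB).inter ht')
    (by intro u hu hu'; fin_cases u <;> simp at hu hu')
  have hc0 : ∀ x ∈ A, ∀ y ∈ A, κ 0 x = κ 0 y := by
    intro x hx y hy
    have hcont : ContinuousOn (κ 0) A := by
      intro z hz
      have := hκ1 0 z (by rw [hF0]; exact hz)
      rw [hF0] at this
      have h2 : ContinuousWithinAt (fun _ : Y => κ 0 z) A z := continuousWithinAt_const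
      exact h2.congr_of_eventuallyEq this rfl
    exact hAc.constant hcont hx hy
  have hc1 : ∀ x ∈ B, ∀ y ∈ B, κ 1 x = κ 1 y := by
    intro x hx y hy
    have hcont : ContinuousOn (κ 1) B := by
      intro z hz
      have := hκ1 1 z (by rw [hF1]; exact hz)
      rw [hF1] at this
      have h2 : ContinuousWithinAt (fun _ : Y => κ 1 z) B z := continuousWithinAt_const
      exact h2.congr_of_eventuallyEq this rfl
    exact hBc.constant hcont hx hy
  obtain ⟨x, hx, hxt⟩ := hne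
  obtain ⟨y, hy, hyt⟩ := hne'
  have e1 := hκ2 x ⟨hx, hxt⟩
  have e2 := hκ3 y (fun h => by
    have : y ∈ A ∩ B ∩ (t ∩ t') := ⟨hy, h.2, hyt⟩
    rw [hcon] at this
    exact this) 0 1 (by rw [hF0]; exact hy.1) (by rw [hF1]; exact hy.2)
  have e3 := hc0 x hx.1 y hy.1
  have e4 := hc1 x hx.2 y hy.2
  omega

end Pool.Agent.B595.HG
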