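import Mathlib
import Pool.Agent.B595.HG.Arrow

set_option autoImplicit false

namespace Pool.Agent.B595.HG

open Topology Filter Set

variable {K : Type} [MetricSpace K] [CompactSpace K]

/-- Some connected closed subset of `H` meets `C` and `f '' C`. -/
def Lk (f : K → K) (C H : Set K) : Prop :=
  ∃ M, M ⊆ H ∧ IsClosed M ∧ IsPreconnected M ∧ (M ∩ C).Nonempty ∧ (M ∩ f '' C).Nonempty

/-- `S` is closed, and saturated for the components of `I`. -/
def Sat (I S : Set K) : Prop := IsClosed S ∧ S ⊆ I ∧ ∀ x ∈ S, connectedComponentIn I x ⊆ S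

theorem sat_of_clopen {I S T : Set K} (hS : Sat I S) (hT : IsClosed T) (hTS : T ⊆ S)
    (hT' : IsClosed (S \ T)) : Sat I T := by
  refine ⟨hT, hTS.trans hS.2.1, fun x hx => ?_⟩
  have h1 : connectedComponentIn I x ⊆ connectedComponentIn S x :=
    isPreconnected_connectedComponentIn.subset_connectedComponentIn
      (mem_connectedComponentIn (hS.2.1 (hTS hx))) (hS.2.2 x (hTS hx))
  exact h1.trans (comp_subset_of_clopen hT hT' hx (hTS hx))

theorem nbhd_P {I S O : Set K} (hS : Sat I S) (hO : IsOpen O) {x : K} (hx : x ∈ S)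
    (hC : connectedComponentIn I x ⊆ O) :
    ∃ T, T ⊆ S ∧ IsClosed T ∧ IsClosed (S \ T) ∧ x ∈ T ∧ ∀ y ∈ T, connectedComponentIn I y ⊆ O := by
  obtain ⟨T, h1, h2, h3, h4, h5⟩ := clopen_nbhd hS.1 hO hx
    ((connectedComponentIn_mono x hS.2.1).trans hC)
  have hT := sat_of_clopen hS h2 h1 h3
  exact ⟨T, h1, h2, h3, h4, fun y hy => (hT.2.2 y hy).trans h5⟩

theorem nbhd_Q {f : K → K} (hf : Continuous f) {I S H : Set K} (hI : IsClosed I) (hS : Sat I S)
    (hH : IsClosed H) {x : K} (hx : x ∈ S) (hC : ¬ Lk f (connectedComponentIn I x) H) :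
    ∃ T, T ⊆ S ∧ IsClosed T ∧ IsClosed (S \ T) ∧ x ∈ T ∧ ∀ y ∈ T, ¬ Lk f (connectedComponentIn I y) H := by
  have hCc : IsClosed (connectedComponentIn I x) := isClosed_comp hI x
  obtain ⟨H1, h1, h2, h3, h4, h5⟩ := separate hH hCc (hCc.isCompact.image hf).isClosed (by
    intro a ha
    by_contra hcon
    rw [← Ne, ← Set.nonempty_iff_ne_empty] at hcon
    exact hC ⟨connectedComponentIn H a, connectedComponentIn_subset _ _, isClosed_comp hH a,
      isPreconnected_connectedComponentIn, ⟨a, mem_connectedComponentIn ha.2, ha.1⟩, hcon⟩)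
  obtain ⟨T, t1, t2, t3, t4, t5⟩ := nbhd_P hS (h3.isOpen_compl.inter (h2.isOpen_compl.preimage hf)) hx (by
    intro y hy
    refine ⟨fun h => h.2 (h4 ⟨hy, h.1⟩), fun h => ?_⟩
    have : f y ∈ H1 ∩ f '' connectedComponentIn I x := ⟨h, ⟨y, hy, rfl⟩⟩
    rw [h5] at this
    exact this)
  refine ⟨T, t1, t2, t3, t4, ?_⟩
  rintro y hy ⟨M, m1, m2, m3, ⟨u, hu, huC⟩, ⟨v, hv, ⟨w, hw, rfl⟩⟩⟩
  have e1 := t5 y hy huC
  have e2 := t5 y hy hw
  rw [isPreconnected_closed_iff] at m3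
  obtain ⟨z, hz, hz1, hz2⟩ := m3 H1 (H \ H1) h2 h3 (by
    intro z hz
    by_cases h : z ∈ H1
    · exact Or.inl h
    · exact Or.inr ⟨m1 hz, h⟩)
    ⟨u, hu, by
      by_contra h
      exact e1.1 ⟨m1 hu, h⟩⟩
    ⟨f w, hv, m1 hv, e2.2⟩
  exact hz2.2 hz1

theorem tow_iff {f : K → K} (b : Set (Set K)) (hb : TopologicalSpace.IsTopologicalBasis b) {C A : Set K}
    (hC : IsClosed C) (h : Tow f C (interior A)) :
    ∃ t : Finset b, C ⊆ (⋃ s ∈ t, s.1) ∪ interior A ∧ Lk f C (⋃ s ∈ t, s.1)ᶜ := by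
  classical
  obtain ⟨M, h1, h2, h3, h4, h5⟩ := h
  have hF : IsCompact (C \ interior A) := (hC.sdiff isOpen_interior).isCompact
  have hch : ∀ x ∈ C \ interior A, ∃ s : b, x ∈ s.1 ∧ s.1 ⊆ Mᶜ := by
    intro x hx
    obtain ⟨s, hs, hxs, hsM⟩ := hb.exists_subset_of_mem_open (a := x) (u := Mᶜ)
      (fun hxM => hx.2 (h5 ⟨hxM, hx.1⟩)) h1.isOpen_compl
    exact ⟨⟨s, hs⟩, hxs, hsM⟩
  obtain ⟨t, ht⟩ := hF.elim_nhds_subcover' (fun x hx => (hch x hx).choose.1)
    (fun x hx => (hb.isOpen (hch x hx).choose.2).mem_nhds (hch x hx).choose_spec.1)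
  refine ⟨t.image (fun x => (hch x.1 x.2).choose), ?_, M, ?_, h1, h2, h3, h4⟩
  · intro x hx
    by_cases hxA : x ∈ interior A
    · exact Or.inr hxA
    · left
      have := ht ⟨hx, hxA⟩
      simp only [Set.mem_iUnion] at this
      obtain ⟨a, ha, hxa⟩ := this
      simp only [Set.mem_iUnion]
      exact ⟨(hch a.1 a.2).choose, Finset.mem_image_of_mem _ ha, hxa⟩
  · intro x hxM hx
    simp only [Set.mem_iUnion] at hx
    obtain ⟨s, hs, hxs⟩ := hx
    rw [Finset.mem_image] at hs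
    obtain ⟨a, -, rfl⟩ := hs
    exact (hch a.1 a.2).choose_spec.2 hxs hxM

theorem mono {f : K → K} (hf : Continuous f) (harc : ArcPres f) {A B : Set K}
    (hA : IsClosed A) (hB : IsClosed B)
    (hint : ∀ z ∈ A ∩ B, z ∈ interior A ∨ z ∈ interior B)
    (hdis : ∀ x ∈ A ∩ B, connectedComponentIn (A ∩ B) x ∩ f '' (connectedComponentIn (A ∩ B) x) = ∅)
    {D : Set K} (hD : Sat (A ∩ B) D) (hDne : D.Nonempty) :
    ∃ S, S ⊆ D ∧ IsClosed S ∧ IsClosed (D \ S) ∧ S.Nonempty ∧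
      ((∀ x ∈ S, Tow f (connectedComponentIn (A ∩ B) x) (interior A)) ∨
        (∀ x ∈ S, Tow f (connectedComponentIn (A ∩ B) x) (interior B))) := by
  classical
  by_contra hcon
  push Not at hcon
  obtain ⟨b, hbc, -, hb⟩ := TopologicalSpace.exists_countable_basis K
  have hbc' : Countable b := hbc.to_subtype
  set I := A ∩ B with hI
  have hIc : IsClosed I := hA.inter hB
  set O : Finset b → Set K := fun t => ⋃ s ∈ t, s.1 with hO
  have hOo : ∀ t, IsOpen (O t) := fun t => isOpen_biUnion fun s _ => hb.isOpen s.2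
  set side : Bool → Set K := fun c => if c then A else B with hside
  -- one step
  have step : ∀ (p : Finset b × Bool) (S : Set K), (S ⊆ D ∧ IsClosed S ∧ IsClosed (D \ S) ∧ S.Nonempty) →
      ∃ T, T ⊆ S ∧ (T ⊆ D ∧ IsClosed T ∧ IsClosed (D \ T) ∧ T.Nonempty) ∧
        ∀ y ∈ T, ¬ (connectedComponentIn I y ⊆ O p.1 ∪ interior (side p.2) ∧
          Lk f (connectedComponentIn I y) (O p.1)ᶜ) := by
    rintro ⟨t, c⟩ S ⟨s1, s2, s3, s4⟩
    have hSs : Sat I S := sat_of_clopen hD s2 s1 s3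
    have htr : ∀ T, T ⊆ S → IsClosed T → IsClosed (S \ T) → IsClosed (D \ T) := by
      intro T h1 h2 h3
      have : D \ T = (D \ S) ∪ (S \ T) := by
        ext y
        constructor
        · rintro ⟨hy1, hy2⟩
          by_cases h : y ∈ S
          · exact Or.inr ⟨h, hy2⟩
          · exact Or.inl ⟨hy1, h⟩
        · rintro (⟨hy1, hy2⟩ | ⟨hy1, hy2⟩)
          · exact ⟨hy1, fun h => hy2 (h1 h)⟩
          · exact ⟨s1 hy1, hy2⟩
      rw [this]
      exact s3.union h3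
    by_cases h : ∃ x ∈ S, ¬ Lk f (connectedComponentIn I x) (O t)ᶜ
    · obtain ⟨x, hx, hnx⟩ := h
      obtain ⟨T, t1, t2, t3, t4, t5⟩ := nbhd_Q hf hIc hSs (hOo t).isClosed_compl hx hnx
      exact ⟨T, t1, ⟨t1.trans s1, t2, htr T t1 t2 t3, ⟨x, t4⟩⟩, fun y hy hcon => t5 y hy hcon.2⟩
    · push Not at h
      by_cases h' : ∃ x ∈ S, connectedComponentIn I x ⊆ O t ∪ interior (side c)
      · exfalso
        obtain ⟨x, hx, hCx⟩ := h'
        obtain ⟨T, t1, t2, t3, t4, t5⟩ := nbhd_P hSs ((hOo t).union isOpen_interior) hx hCx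
        have hT : ∀ y ∈ T, Tow f (connectedComponentIn I y) (interior (side c)) := by
          intro y hy
          obtain ⟨M, m1, m2, m3, m4, m5⟩ := h y (t1 hy)
          refine ⟨M, m2, m3, m4, m5, ?_⟩
          rintro z ⟨hz1, hz2⟩
          rcases t5 y hy hz2 with hh | hh
          · exact absurd hh (m1 hz1)
          · exact hh
        obtain ⟨c1, c2⟩ := hcon T (t1.trans s1) t2 (htr T t1 t2 t3) ⟨x, t4⟩
        obtain ⟨y1, hy1, hn1⟩ := c1
        obtain ⟨y2, hy2, hn2⟩ := c2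
        cases c
        · exact hn2 (hT y2 hy2)
        · exact hn1 (hT y1 hy1)
      · push Not at h'
        exact ⟨S, le_refl _, ⟨s1, s2, s3, s4⟩, fun y hy hcon => h' y hy hcon.1⟩
  obtain ⟨e, he⟩ := exists_surjective_nat (Finset b × Bool)
  choose T hT1 hT2 hT3 using step
  set X := {S : Set K // S ⊆ D ∧ IsClosed S ∧ IsClosed (D \ S) ∧ S.Nonempty} with hX
  let sq : ℕ → X := fun n => Nat.rec (⟨D, le_refl _, hD.1, by simp, hDne⟩ : X)
    (fun n S => ⟨T (e n) S.1 S.2, hT2 (e n) S.1 S.2⟩) n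
  have hsq : ∀ n, (sq (n + 1)).1 = T (e n) (sq n).1 (sq n).2 := fun n => rfl
  obtain ⟨x, hx⟩ := IsCompact.nonempty_iInter_of_sequence_nonempty_isCompact_isClosed (fun n => (sq n).1)
    (fun n => by rw [hsq]; exact hT1 _ _ _) (fun n => (sq n).2.2.2.2) (sq 0).2.2.1.isCompact
    (fun n => (sq n).2.2.1)
  rw [Set.mem_iInter] at hx
  have hxD : x ∈ D := (sq 0).2.1 (hx 0)
  have hxI : x ∈ I := hD.2.1 hxD
  have hno : ∀ c, ¬ Tow f (connectedComponentIn I x) (interior (side c)) := by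
    intro c hc
    obtain ⟨t, ht1, ht2⟩ := tow_iff b hb (isClosed_comp hIc x) hc
    obtain ⟨n, hn⟩ := he (t, c)
    have := hT3 (e n) (sq n).1 (sq n).2 x (by rw [← hsq]; exact hx (n + 1))
    rw [hn] at this
    exact this ⟨ht1, ht2⟩
  rcases tow_or harc hA hB hint hxI (hdis x hxI) with h | h
  · exact hno true h
  · exact hno false h

end Pool.Agent.B595.HG
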