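import Mathlib
import Pool.Agent.B595.HG.H1
import Pool.Agent.B595.HG.Mono

set_option autoImplicit false

namespace Pool.Agent.B595.HG

open Topology Filter Set
open Pool.Agent.B595.NW

variable {K : Type} [MetricSpace K]

/-- Families of saturated closed sets all of whose missing doors point inwards. -/
def Fam (f : K → K) {n : ℕ} (R : Fin n → Set K) (M : Set (Fin n × K)) : Prop :=
  IsClosed M ∧ M.Nonempty ∧
  (∀ i x, (i, x) ∈ M → x ∈ R i ∧ ∀ y ∈ connectedComponentIn (R i) x, (i, y) ∈ M) ∧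
  (∀ i j x, i ≠ j → (i, x) ∈ M → x ∈ R j → (j, x) ∉ M →
    Tow f (connectedComponentIn (R i ∩ R j) x) (interior (R i)))

theorem locConst_prod {n : ℕ} {M : Set (Fin n × K)} {κ : Fin n → K → ℤ}
    (h : ∀ u, ∀ x, (u, x) ∈ M → ∀ᶠ x' in 𝓝[{y | (u, y) ∈ M}] x, κ u x' = κ u x) :
    ∀ p ∈ M, ∀ᶠ p' in 𝓝[M] p, κ p'.1 p'.2 = κ p.1 p.2 := by
  rintro ⟨u, x⟩ hp
  have h1 := eventually_nhdsWithin_iff.mp (h u x hp)
  rw [eventually_nhdsWithin_iff]
  have h2 : ∀ᶠ p' : Fin n × K in 𝓝 (u, x), p'.1 = u := by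
    have : Tendsto (fun p : Fin n × K => p.1) (𝓝 (u, x)) (𝓝 u) := continuous_fst.continuousAt
    exact this.eventually (p := fun c => c = u) (by rw [nhds_discrete]; exact Filter.eventually_pure.mpr rfl)
  have h3 : ∀ᶠ p' : Fin n × K in 𝓝 (u, x), (p'.2 ∈ {y | (u, y) ∈ M} → κ u p'.2 = κ u x) := by
    have : Tendsto (fun p : Fin n × K => p.2) (𝓝 (u, x)) (𝓝 x) := continuous_snd.continuousAt
    exact this.eventually h1
  filter_upwards [h2, h3] with p' a b hp'
  obtain ⟨c, y⟩ := p'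
  simp only at a
  subst a
  exact b hp'

theorem shrink [CompactSpace K] (hF : ForestCov K) {f : K → K} {n : ℕ} {R : Fin n → Set K}
    (h3 : ∀ i j k, i ≠ j → j ≠ k → i ≠ k → R i ∩ R j ∩ R k = ∅)
    {M : Set (Fin n × K)} (hM : Minimal (fun M => Fam f R M) M) (v w : Fin n) (hvw : v ≠ w) {S : Set K}
    (hS : IsClosed S) (hSne : S.Nonempty) (hSD : ∀ x ∈ S, (v, x) ∈ M ∧ (w, x) ∈ M)
    (hS' : IsClosed ({x | (v, x) ∈ M ∧ (w, x) ∈ M} \ S))
    (hT : ∀ x ∈ S, Tow f (connectedComponentIn (R v ∩ R w) x) (interior (R w))) : False := by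
  classical
  obtain ⟨⟨hMc, hMne, hMs, hMa⟩, hmin⟩ := hM
  set A : Fin n → Set K := fun u => {x | (u, x) ∈ M} with hA
  have hAc : ∀ u, IsClosed (A u) := fun u => hMc.preimage (by fun_prop)
  obtain ⟨κ, k1, k2, k3⟩ := h1 hF A hAc v w hvw S hS (fun x hx => hSD x hx) hS' (by
    intro u hu hu' x hx hxu
    have e1 := (hMs v x (hSD x hx).1).1
    have e2 := (hMs w x (hSD x hx).2).1
    have e3 := (hMs u x hxu).1
    have : x ∈ R v ∩ R w ∩ R u := ⟨⟨e1, e2⟩, e3⟩
    rw [h3 v w u hvw (Ne.symm hu') (Ne.symm hu)] at this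
    exact this)
  have hloc := locConst_prod (M := M) (κ := κ) (fun u x hx => k1 u x hx)
  obtain ⟨p0, hp0M, hp0⟩ : ∃ p0 ∈ M, ∀ p ∈ M, κ p.1 p.2 ≤ κ p0.1 p0.2 := by
    obtain ⟨t, htM, ht⟩ := hMc.isCompact.elim_nhdsWithin_subcover (fun p => {p' | κ p'.1 p'.2 = κ p.1 p.2})
      (fun p hp => hloc p hp)
    have htne : t.Nonempty := by
      obtain ⟨y, hy⟩ := hMne
      have := ht hy
      simp only [Set.mem_iUnion] at this
      obtain ⟨a, ha, _⟩ := this
      exact ⟨a, ha⟩
    obtain ⟨a, ha, hmax⟩ := t.exists_max_image (fun p => κ p.1 p.2) htne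
    refine ⟨a, htM a ha, fun y hy => ?_⟩
    have := ht hy
    simp only [Set.mem_iUnion] at this
    obtain ⟨b, hb, hyb⟩ := this
    have hyb' : κ y.1 y.2 = κ b.1 b.2 := hyb
    rw [hyb']
    exact hmax b hb
  set mx := κ p0.1 p0.2 with hmx
  set M' : Set (Fin n × K) := {p | p ∈ M ∧ κ p.1 p.2 = mx} with hM'
  have hM'c : IsClosed M' := by
    rw [← isOpen_compl_iff, isOpen_iff_mem_nhds]
    intro p hp
    by_cases hpM : p ∈ M
    · have hne : κ p.1 p.2 ≠ mx := fun h => hp ⟨hpM, h⟩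
      filter_upwards [eventually_nhdsWithin_iff.mp (hloc p hpM)] with p' a hp'
      exact hne (by rw [← a hp'.1]; exact hp'.2)
    · filter_upwards [hMc.isOpen_compl.mem_nhds hpM] with p' a hp'
      exact a hp'.1
  have hfam : Fam f R M' := by
    refine ⟨hM'c, ⟨p0, hp0M, rfl⟩, ?_, ?_⟩
    · rintro i x ⟨hx, hxm⟩
      refine ⟨(hMs i x hx).1, fun y hy => ⟨(hMs i x hx).2 y hy, ?_⟩⟩
      have hcont : ContinuousOn (κ i) (connectedComponentIn (R i) x) := by
        intro z hz
        have h1 := (k1 i z ((hMs i x hx).2 z hz)).filter_mono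
          (nhdsWithin_mono z (fun y hy => (hMs i x hx).2 y hy : connectedComponentIn (R i) x ⊆ A i))
        have h2 : ContinuousWithinAt (fun _ : K => κ i z) (connectedComponentIn (R i) x) z :=
          continuousWithinAt_const
        exact h2.congr_of_eventuallyEq h1 rfl
      have := isPreconnected_connectedComponentIn.constant hcont hy
        (mem_connectedComponentIn (hMs i x hx).1)
      show κ i y = mx
      rw [this]; exact hxm
    · rintro a b x hab ⟨hax, hxm⟩ hxb hbx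
      by_cases hbM : (b, x) ∈ M
      · have hne : κ b x ≠ mx := fun h => hbx ⟨hbM, h⟩
        have hxm' : κ a x = mx := hxm
        have hxS : x ∈ S := by
          by_contra hxS
          exact hne (by rw [← k3 x hxS a b hax hbM]; exact hxm')
        have hv := (hMs v x (hSD x hxS).1).1
        have hw := (hMs w x (hSD x hxS).2).1
        have hRa := (hMs a x hax).1
        have hmem : ∀ c, x ∈ R c → c = v ∨ c = w := by
          intro c hc
          by_contra hcon
          push Not at hcon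
          have : x ∈ R v ∩ R w ∩ R c := ⟨⟨hv, hw⟩, hc⟩
          rw [h3 v w c hvw (Ne.symm hcon.2) (Ne.symm hcon.1)] at this
          exact this
        have hk := k2 x hxS
        rcases hmem a hRa with rfl | rfl
        · exfalso
          have hle := hp0 (w, x) (hSD x hxS).2
          have hle' : κ w x ≤ mx := hle
          omega
        · rcases hmem b hxb with rfl | rfl
          · rw [Set.inter_comm]
            exact hT x hxS
          · exact absurd rfl hab
      · exact hMa a b x hab hax hxb hbM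
  have hle : M' ⊆ M := fun p hp => hp.1
  have heq := hmin hfam hle
  obtain ⟨x, hx⟩ := hSne
  have e1 := heq (hSD x hx).1
  have e2 : κ v x = mx := e1.2
  have e3 : κ w x ≤ mx := hp0 (w, x) (hSD x hx).2
  have e4 := k2 x hx
  omega

theorem no_cover [CompactSpace K] [Nonempty K] (hF : ForestCov K) {f : K → K} (hf : Continuous f)
    (harc : ArcPres f) {n : ℕ} {R : Fin n → Set K} (hR : ∀ i, IsClosed (R i))
    (hcov : ∀ z, ∃ i, z ∈ interior (R i))
    (h3 : ∀ i j k, i ≠ j → j ≠ k → i ≠ k → R i ∩ R j ∩ R k = ∅)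
    (hdis : ∀ i, ∀ Q ⊆ R i, Q ∩ f '' Q = ∅) : False := by
  classical
  have hU : Uni K := fun A B hA hB hA' hB' => unicoherent hF hA hB hA' hB'
  have hint : ∀ i j, i ≠ j → ∀ z ∈ R i ∩ R j, z ∈ interior (R i) ∨ z ∈ interior (R j) := by
    intro i j hij z hz
    obtain ⟨k, hk⟩ := hcov z
    by_cases h1 : k = i
    · exact Or.inl (h1 ▸ hk)
    · by_cases h2 : k = j
      · exact Or.inr (h2 ▸ hk)
      · exfalso
        have : z ∈ R i ∩ R j ∩ R k := ⟨hz, interior_subset hk⟩
        rw [h3 i j k hij (Ne.symm h2) (Ne.symm h1)] at this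
        exact this
  have hdis2 : ∀ i j x, connectedComponentIn (R i ∩ R j) x ∩ f '' (connectedComponentIn (R i ∩ R j) x) = ∅ :=
    fun i j x => hdis i _ ((connectedComponentIn_subset _ _).trans Set.inter_subset_left)
  set B : Set (Set (Fin n × K)) := {M | Fam f R M} with hB
  have hstart : {p : Fin n × K | p.2 ∈ R p.1} ∈ B := by
    refine ⟨?_, ?_, ?_, ?_⟩
    · have : {p : Fin n × K | p.2 ∈ R p.1} = ⋃ i, (Prod.fst ⁻¹' {i} ∩ Prod.snd ⁻¹' R i) := by
        ext p
        simp only [Set.mem_ofPred_eq, Set.mem_iUnion, Set.mem_inter_iff, Set.mem_preimage, Set.mem_singleton_iff]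
        constructor
        · intro h; exact ⟨p.1, rfl, h⟩
        · rintro ⟨i, rfl, h⟩; exact h
      rw [this]
      exact isClosed_iUnion_of_finite fun i =>
        ((isClosed_discrete _).preimage continuous_fst).inter ((hR i).preimage continuous_snd)
    · obtain ⟨z⟩ := ‹Nonempty K›
      obtain ⟨i, hi⟩ := hcov z
      have hzi : z ∈ R i := interior_subset hi
      exact ⟨(i, z), hzi⟩
    · intro i x hx
      refine ⟨hx, fun y hy => ?_⟩
      have hyi : y ∈ R i := connectedComponentIn_subset _ _ hy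
      exact hyi
    · intro i j x _ _ hxj hn
      exact absurd hxj hn
  obtain ⟨M, -, hM⟩ := zorn_superset_nonempty B (by
    intro C hCB hC hCne
    refine ⟨⋂₀ C, ⟨isClosed_sInter fun Z hZ => (hCB hZ).1, ?_, ?_, ?_⟩, fun s hs => Set.sInter_subset_of_mem hs⟩
    · have hCne' : Nonempty C := hCne.to_subtype
      exact IsCompact.nonempty_sInter_of_directed_nonempty_isCompact_isClosed (S := C)
        (by
          intro A hA B hB
          rcases hC.total hA hB with h | h
          · exact ⟨A, hA, le_refl _, h⟩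
          · exact ⟨B, hB, h, le_refl _⟩)
        (fun A hA => (hCB hA).2.1) (fun A hA => (hCB hA).1.isCompact) (fun A hA => (hCB hA).1)
    · intro i x hx
      obtain ⟨Z, hZ⟩ := hCne
      exact ⟨((hCB hZ).2.2.1 i x (hx Z hZ)).1, fun y hy Z' hZ' => ((hCB hZ').2.2.1 i x (hx Z' hZ')).2 y hy⟩
    · intro i j x hij hx hxj hn
      have : ∃ Z ∈ C, (j, x) ∉ Z := by
        by_contra hcon
        push Not at hcon
        exact hn hcon
      obtain ⟨Z, hZ, hnZ⟩ := this
      exact (hCB hZ).2.2.2 i j x hij (hx Z hZ) hxj hnZ) _ hstart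
  have hM0 : Fam f R M := hM.prop
  obtain ⟨⟨i, x⟩, hix⟩ := hM0.2.1
  have hxR := (hM0.2.2.1 i x hix).1
  obtain ⟨j, hji, y, hyP, hyj, hT⟩ := door hf harc hR hcov hxR
    (hdis i _ (connectedComponentIn_subset _ _))
  have hiy : (i, y) ∈ M := (hM0.2.2.1 i x hix).2 y hyP
  have hyi : y ∈ R i := (hM0.2.2.1 i y hiy).1
  have hjy : (j, y) ∈ M := by
    by_contra hn
    exact tow_excl hU hf harc (hR i) (hR j) ⟨hyi, hyj⟩ (hdis2 i j y)
      (hM0.2.2.2 i j y (Ne.symm hji) hiy hyj hn) hT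
  set D : Set K := {x | (i, x) ∈ M ∧ (j, x) ∈ M} with hD
  have hDc : IsClosed D :=
    (hM0.1.preimage (by fun_prop : Continuous fun x : K => (i, x))).inter
      (hM0.1.preimage (by fun_prop : Continuous fun x : K => (j, x)))
  have hsat : Sat (R i ∩ R j) D := by
    refine ⟨hDc, fun x hx => ⟨(hM0.2.2.1 i x hx.1).1, (hM0.2.2.1 j x hx.2).1⟩, fun x hx z hz => ?_⟩
    exact ⟨(hM0.2.2.1 i x hx.1).2 z (connectedComponentIn_mono x Set.inter_subset_left hz),
      (hM0.2.2.1 j x hx.2).2 z (connectedComponentIn_mono x Set.inter_subset_right hz)⟩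
  obtain ⟨S, s1, s2, s3, s4, s5⟩ := mono hf harc (hR i) (hR j) (hint i j (Ne.symm hji))
    (fun x _ => hdis2 i j x) hsat ⟨y, hiy, hjy⟩
  rcases s5 with s5 | s5
  · refine shrink hF h3 hM j i hji s2 s4 (fun x hx => ⟨(s1 hx).2, (s1 hx).1⟩) ?_ ?_
    · have : {x | (j, x) ∈ M ∧ (i, x) ∈ M} = D := by ext; simp [hD, and_comm]
      rw [this]; exact s3
    · intro x hx
      rw [Set.inter_comm]
      exact s5 x hx
  · exact shrink hF h3 hM i j (Ne.symm hji) s2 s4 (fun x hx => s1 hx) s3 s5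

theorem hagopian [CompactSpace K] [Nonempty K]
    (hT : ∀ ε : ℝ, 0 < ε → ∃ (n : ℕ) (U : Fin n → Set K),
        (∀ i, IsOpen (U i)) ∧
        (∀ i, Metric.diam (U i) < ε) ∧
        (⋃ i, U i) = Set.univ ∧
        (∀ i j k, i ≠ j → j ≠ k → i ≠ k → U i ∩ U j ∩ U k = ∅) ∧
        (SimpleGraph.fromRel (fun i j : Fin n => (U i ∩ U j).Nonempty)).IsAcyclic)
    {f : K → K} (hf : Continuous f) (harc : ArcPres f) : ∃ x, f x = x := by
  by_contra hcon
  push Not at hcon
  have hF : ForestCov K := by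
    intro ε hε
    obtain ⟨n, U, h1, h2, h3, _, h5⟩ := hT ε hε
    exact ⟨n, U, h1, h2, h3, h5⟩
  obtain ⟨x0, -, hx0⟩ := isCompact_univ.exists_isMinOn (Set.univ_nonempty (α := K))
    (Continuous.dist continuous_id hf).continuousOn
  have hδ : 0 < dist x0 (f x0) := dist_pos.mpr (Ne.symm (hcon x0))
  obtain ⟨n, U, h1, h2, h3, h4, -⟩ := hT (dist x0 (f x0)) hδ
  obtain ⟨V, hV1, hV2, hV3⟩ := exists_iUnion_eq_closure_subset h1 (fun x => Set.toFinite _) h3
  refine no_cover hF hf harc (R := fun i => closure (V i)) (fun i => isClosed_closure) ?_ ?_ ?_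
  · intro z
    have : z ∈ ⋃ i, V i := by rw [hV1]; trivial
    rw [Set.mem_iUnion] at this
    obtain ⟨i, hi⟩ := this
    exact ⟨i, (hV2 i).subset_interior_closure hi⟩
  · intro i j k hij hjk hik
    rw [← Set.subset_empty_iff, ← h4 i j k hij hjk hik]
    exact Set.inter_subset_inter (Set.inter_subset_inter (hV3 i) (hV3 j)) (hV3 k)
  · intro i Q hQ
    rw [Set.eq_empty_iff_forall_notMem]
    rintro y ⟨hy, ⟨x, hx, rfl⟩⟩
    have hb : Bornology.IsBounded (U i) := Metric.isBounded_of_compactSpace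
    have h5 := Metric.dist_le_diam_of_mem hb (hV3 i (hQ hx)) (hV3 i (hQ hy))
    have h6 := h2 i
    have h7 : dist x0 (f x0) ≤ dist x (f x) := hx0 (Set.mem_univ x)
    linarith

end Pool.Agent.B595.HG
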